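import Pool.Agent.V5helper1.FS.Stm

/-!
# Project FS: basic lemmas
-/

set_option autoImplicit false

open Cardinal Set

namespace Pool.Agent.V5helper1.FS

/-! ### cardinals -/

theorem aleph_nat_lt {m n : ℕ} (h : m < n) : (ℵ_ m : Cardinal.{0}) < ℵ_ n :=
  aleph_lt_aleph.mpr (by exact_mod_cast h)

theorem aleph_nat_le {m n : ℕ} (h : m ≤ n) : (ℵ_ m : Cardinal.{0}) ≤ ℵ_ n :=
  aleph_le_aleph.mpr (by exact_mod_cast h)

theorem aleph_nat_lt_omega (n : ℕ) : (ℵ_ n : Cardinal.{0}) < ℵ_ Ordinal.omega0 :=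
  aleph_lt_aleph.mpr (Ordinal.natCast_lt_omega0 n)

theorem aleph_omega_lt : (ℵ_ Ordinal.omega0 : Cardinal.{0}) < ℵ_ (Ordinal.omega0 + 1) :=
  aleph_lt_aleph.mpr (by
    exact lt_add_one _)

theorem lt_kappa_iff {c : Cardinal.{0}} :
    c < ℵ_ (Ordinal.omega0 + 1) ↔ c ≤ ℵ_ Ordinal.omega0 := by
  rw [← succ_aleph, Order.lt_succ_iff]

theorem aleph0_le_nat (n : ℕ) : ℵ₀ ≤ (ℵ_ n : Cardinal.{0}) := aleph0_le_aleph _

theorem regular_nat : ∀ n : ℕ, (ℵ_ n : Cardinal.{0}).IsRegular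
  | 0 => by
    rw [Nat.cast_zero, aleph_zero]
    exact isRegular_aleph0
  | n + 1 => by
    rw [Nat.cast_succ]
    exact isRegular_aleph_add_one _

theorem regular_kappa : (ℵ_ (Ordinal.omega0 + 1) : Cardinal.{0}).IsRegular :=
  isRegular_aleph_add_one _

theorem mk_W (c : Cardinal.{0}) : #(W c) = c := mk_ord_toType c

theorem mk_K : #K = ℵ_ (Ordinal.omega0 + 1) := mk_W _

theorem mk_L : #L = ℵ_ Ordinal.omega0 := mk_W _

theorem mk_Iio_W {c : Cardinal.{0}} (a : W c) : #(Iio a) < c := by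
  have := mk_Iio_lt a (by simp)
  simpa using this

theorem mk_Iio_K (a : K) : #(Iio a) ≤ ℵ_ Ordinal.omega0 := lt_kappa_iff.mp (mk_Iio_W a)

/-- in the least well-order of regular cardinality `c` the sets of size `< c` are bounded -/
theorem bdd_W {c : Cardinal.{0}} (hc : c.IsRegular) (s : Set (W c)) (hs : #s < c) :
    ∃ b, ∀ a ∈ s, a < b := by
  have h : Order.cof (W c) = c := by rw [Ordinal.cof_toType, hc.cof_ord]
  by_contra hcon
  push Not at hcon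
  have h1 : IsCofinal s := fun b => hcon b
  have h2 := Order.cof_le h1
  rw [h] at h2
  exact absurd hs h2.not_gt

theorem bdd_K (s : Set K) (hs : #s ≤ ℵ_ Ordinal.omega0) : ∃ b, ∀ a ∈ s, a < b :=
  bdd_W regular_kappa s (lt_kappa_iff.mpr hs)

theorem exists_gt_K (a : K) : ∃ b, a < b := by
  obtain ⟨b, hb⟩ := bdd_K {a} (by
    rw [mk_singleton]
    exact one_le_aleph0.trans (aleph0_le_aleph _))
  exact ⟨b, hb a rfl⟩

/-- large sets are unbounded -/
theorem unbounded_of_mk {X : Set K} (hX : #X = #K) (b : K) : ∃ x ∈ X, b < x := by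
  by_contra hcon
  push Not at hcon
  obtain ⟨c, hc⟩ := exists_gt_K b
  have h1 : X ⊆ Iio c := fun x hx => (hcon x hx).trans_lt hc
  have h2 := (mk_le_mk_of_subset h1).trans (mk_Iio_K c)
  rw [hX, mk_K] at h2
  exact absurd aleph_omega_lt h2.not_gt

/-! ### recursion -/

theorem exists_rec {ι α : Type} [LinearOrder ι] [WellFoundedLT ι]
    (P : ∀ i : ι, (Iio i → α) → α → Prop) (h : ∀ i g, ∃ a, P i g a) :
    ∃ f : ι → α, ∀ i, P i (fun j => f j) (f i) := by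
  choose F hF using h
  let f : ι → α := (wellFounded_lt (α := ι)).fix fun i g => F i fun j => g j.1 j.2
  refine ⟨f, fun i => ?_⟩
  have e : f i = F i fun j => f j := (wellFounded_lt (α := ι)).fix_eq _ i
  rw [e]
  exact hF i _

/-! ### cofinal sets -/

theorem not_cof {δ : K} {C : Set K} : ¬ Cof δ C ↔ ∃ b < δ, ∀ a ∈ C, a < δ → a ≤ b := by
  unfold Cof
  push Not
  constructor
  · rintro ⟨b, hb, h⟩
    refine ⟨b, hb, fun a ha had => ?_⟩
    by_contra hc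
    exact absurd had (h a ha (not_le.mp hc)).not_gt
  · rintro ⟨b, hb, h⟩
    refine ⟨b, hb, fun a ha hba => ?_⟩
    by_contra hc
    exact absurd hba (h a ha (not_le.mp hc)).not_gt

theorem Cof.mono {δ : K} {C D : Set K} (h : Cof δ C) (hCD : C ⊆ D) : Cof δ D := fun b hb => by
  obtain ⟨a, ha, h1⟩ := h b hb
  exact ⟨a, hCD ha, h1⟩

/-- a union of fewer than `ℵ_k` sets bounded in `δ` is bounded in `δ` -/
theorem S.iUnion {k : ℕ} {δ : K} (hδ : S k δ) {ι : Type} (hι : #ι < ℵ_ k) {C : ι → Set K}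
    (h : ∀ i, ¬ Cof δ (C i)) : ¬ Cof δ (⋃ i, C i) := by
  have h1 : ∀ i, ∃ b < δ, ∀ a ∈ C i, a < δ → a ≤ b := fun i => not_cof.mp (h i)
  choose b hb hb' using h1
  have h2 := hδ.1 (range b) (mk_range_le.trans_lt hι)
  obtain ⟨c, hc, hc'⟩ := not_cof.mp h2
  exact not_cof.mpr ⟨c, hc, fun a ha had => by
    obtain ⟨i, hi⟩ := mem_iUnion.mp ha
    exact (hb' i a hi had).trans (hc' _ (mem_range_self i) (hb i))⟩

/-- if the union of a bounded set and `C` is cofinal, so is `C` -/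
theorem Cof.diff {δ : K} {C D : Set K} (h : Cof δ C) (hD : ¬ Cof δ (D ∩ C)) : Cof δ (C \ D) := by
  obtain ⟨c, hc, hc'⟩ := not_cof.mp hD
  intro b hb
  obtain ⟨a, ha, h1, h2⟩ := h (max b c) (max_lt hb hc)
  refine ⟨a, ⟨ha, fun haD => ?_⟩, (le_max_left _ _).trans_lt h1, h2⟩
  exact absurd ((le_max_right b c).trans_lt h1) (hc' a ⟨haD, ha⟩ h2).not_gt

/-- a cofinal set in a point of cofinality `ℵ_k` has at least `ℵ_k` elements, above every bound -/
theorem S.le_mk {k : ℕ} {δ : K} (hδ : S k δ) {C : Set K} (h : Cof δ C) : ℵ_ k ≤ #C := by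
  by_contra hc
  exact hδ.1 C (not_le.mp hc) h

theorem S.lt_of_lt {k : ℕ} {δ : K} (hδ : S k δ) {b : K} (hb : b < δ) : ∃ c, b < c ∧ c < δ := by
  obtain ⟨C, -, hC⟩ := hδ.2
  obtain ⟨a, -, h1, h2⟩ := hC b hb
  exact ⟨a, h1, h2⟩

/-! ### decompositions -/

theorem omega_le_sum : (ℵ_ Ordinal.omega0 : Cardinal.{0}) ≤ #(Σ n : ℕ, W (ℵ_ n)) := by
  rw [mk_sigma]
  simp only [mk_W]
  rw [aleph_limit Ordinal.isSuccLimit_omega0]
  refine ciSup_le' ?_
  rintro ⟨a, ha⟩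
  obtain ⟨n, rfl⟩ := Ordinal.lt_omega0.mp ha
  exact le_sum (fun n : ℕ => (ℵ_ n : Cardinal.{0})) n

theorem mk_sigma_fin (n : ℕ) : #(Σ m : Fin (n + 1), W (ℵ_ (m : ℕ))) ≤ ℵ_ n := by
  rw [mk_sigma]
  simp only [mk_W]
  refine (sum_le_sum _ (fun _ => ℵ_ n) fun m => aleph_nat_le (Nat.lt_succ_iff.mp m.2)).trans ?_
  rw [sum_const']
  refine (mul_le_mul_left (?_ : #(Fin (n + 1)) ≤ ℵ_ n) _).trans (mul_eq_self (aleph0_le_nat n)).le
  rw [mk_fin]
  exact (natCast_lt_aleph0.le).trans (aleph0_le_nat n)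

/-- the decomposition of the initial segments -/
theorem exists_E : ∃ E : K → ℕ → Set K, (∀ a, Monotone (E a)) ∧ (∀ a, ⋃ n, E a n = Iio a) ∧
    ∀ a n, #(E a n) ≤ ℵ_ n := by
  have h1 : ∀ a : K, Nonempty (Iio a ↪ Σ n : ℕ, W (ℵ_ n)) := fun a =>
    (mk_Iio_K a).trans omega_le_sum
  let j : ∀ a : K, Iio a ↪ Σ n : ℕ, W (ℵ_ n) := fun a => (h1 a).some
  refine ⟨fun a n => {x | ∃ h : x < a, (j a ⟨x, h⟩).1 ≤ n}, ?_, ?_, ?_⟩
  · rintro a m n hmn x ⟨h, h2⟩
    exact ⟨h, h2.trans hmn⟩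
  · intro a
    ext x
    rw [mem_iUnion]
    constructor
    · rintro ⟨n, h, -⟩
      exact h
    · intro h
      exact ⟨_, h, le_rfl⟩
  · intro a n
    refine le_trans ?_ (mk_sigma_fin n)
    refine mk_le_of_injective (f := fun x : {x | ∃ h : x < a, (j a ⟨x, h⟩).1 ≤ n} =>
      (⟨⟨(j a ⟨x.1, x.2.choose⟩).1, Nat.lt_succ_of_le x.2.choose_spec⟩,
        (j a ⟨x.1, x.2.choose⟩).2⟩ : Σ m : Fin (n + 1), W (ℵ_ (m : ℕ)))) ?_
    rintro ⟨x, hx⟩ ⟨y, hy⟩ hxy
    have h2 := congrArg (fun z : Σ m : Fin (n + 1), W (ℵ_ (m : ℕ)) =>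
      (⟨(z.1 : ℕ), z.2⟩ : Σ m : ℕ, W (ℵ_ m))) hxy
    have h3 : j a ⟨x, hx.choose⟩ = j a ⟨y, hy.choose⟩ := h2
    have h4 := (j a).injective h3
    exact Subtype.ext (congrArg (fun z : Iio a => (z : K)) h4)

/-! ### points of cofinality `ℵ_k` closed under a function -/

/-- a function majorised by a monotone one -/
theorem exists_bound (g : K → K) : ∃ G : K → K, (∀ a b, b ≤ a → g b < G a) ∧ ∀ a, a < G a := by
  have h : ∀ a : K, ∃ c, ∀ b ∈ g '' Iic a ∪ {a}, b < c := by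
    intro a
    apply bdd_K
    refine (mk_union_le _ _).trans ?_
    refine add_le_of_le (aleph0_le_aleph _) (mk_image_le.trans ?_) ?_
    · obtain ⟨b, hb⟩ := exists_gt_K a
      exact (mk_le_mk_of_subset fun x hx => lt_of_le_of_lt hx hb).trans (mk_Iio_K b)
    · rw [mk_singleton]
      exact one_le_aleph0.trans (aleph0_le_aleph _)
  choose G hG using h
  exact ⟨G, fun a b hb => hG a _ (Or.inl ⟨b, hb, rfl⟩), fun a => hG a a (Or.inr rfl)⟩

theorem exists_S (k : ℕ) (g : K → K) : ∃ δ, S k δ ∧ ∀ α < δ, g α < δ := by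
  obtain ⟨G, hG, hG'⟩ := exists_bound g
  have hW := regular_nat k
  obtain ⟨a, ha⟩ := exists_rec (ι := W (ℵ_ k)) (α := K)
    (fun i p b => ∀ j : Iio i, G (p j) < b) (fun i p => by
      obtain ⟨b, hb⟩ := bdd_K (range fun j => G (p j)) (mk_range_le.trans
        ((mk_Iio_W i).le.trans (aleph_nat_lt_omega k).le))
      exact ⟨b, fun j => hb _ (mem_range_self j)⟩)
  have ha' : ∀ i j, j < i → G (a j) < a i := fun i j h => ha i ⟨j, h⟩
  obtain ⟨B, hB⟩ := bdd_K (range a) (mk_range_le.trans (by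
    rw [mk_W]
    exact (aleph_nat_lt_omega k).le))
  have hne : {b : K | ∀ i, a i < b}.Nonempty := ⟨B, fun i => hB _ (mem_range_self i)⟩
  let δ := (wellFounded_lt (α := K)).min _ hne
  have h1 : ∀ i, a i < δ := (wellFounded_lt (α := K)).min_mem _ hne
  have hsucc : ∀ i : W (ℵ_ k), ∃ j, i < j := by
    intro i
    obtain ⟨b, hb⟩ := bdd_W hW {i} (by
      rw [mk_singleton]
      exact one_lt_aleph0.trans_le (aleph0_le_nat k))
    exact ⟨b, hb i rfl⟩
  have h2 : ∀ b < δ, ∃ i, b < a i := by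
    intro b hb
    by_contra hcon
    push Not at hcon
    have hbm : b ∈ {b : K | ∀ i, a i < b} := fun i => by
      obtain ⟨j, hj⟩ := hsucc i
      exact ((hG' _).trans (ha' j i hj)).trans_le (hcon j)
    exact (wellFounded_lt (α := K)).not_lt_min _ hbm hb
  refine ⟨δ, ⟨?_, range a, ?_, ?_⟩, ?_⟩
  · intro C hC hcof
    have h3 : ∀ c : {c : K // c ∈ C ∧ c < δ}, ∃ i, (c : K) < a i := fun c => h2 _ c.2.2
    choose r hr using h3
    obtain ⟨i, hi⟩ := bdd_W hW (range r) (by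
      refine mk_range_le.trans_lt (lt_of_le_of_lt ?_ hC)
      exact mk_le_of_injective (f := fun c : {c : K // c ∈ C ∧ c < δ} => (⟨c.1, c.2.1⟩ : C))
        fun x y h => Subtype.ext (congrArg (fun z : C => (z : K)) h))
    obtain ⟨c, hc, hic, hcδ⟩ := hcof (a i) (h1 i)
    have h4 := hi _ (mem_range_self ⟨c, hc, hcδ⟩)
    have h5 := hr ⟨c, hc, hcδ⟩
    have h6 := ((hG' _).trans (ha' _ _ h4))
    exact absurd hic (h5.trans h6).not_gt
  · exact mk_range_le.trans (mk_W _).le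
  · intro b hb
    obtain ⟨i, hi⟩ := h2 b hb
    exact ⟨a i, mem_range_self i, hi, h1 i⟩
  · intro α hα
    obtain ⟨i, hi⟩ := h2 α hα
    obtain ⟨j, hj⟩ := hsucc i
    exact ((hG _ _ hi.le).trans (ha' j i hj)).trans (h1 j)

end Pool.Agent.V5helper1.FS
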