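import Pool.Agent.V5helper1.FS.Base

/-!
# Project FS: diamond at `ℵ_{ω+1}` (Shelah)
-/

set_option autoImplicit false

open Cardinal Set

namespace Pool.Agent.V5helper1.FS

/-! ### ENUM -/

theorem kappa_pow (h : (2 : Cardinal.{0}) ^ ℵ_ Ordinal.omega0 = ℵ_ (Ordinal.omega0 + 1))
    {c : Cardinal.{0}} (hc : c ≤ ℵ_ Ordinal.omega0) :
    (ℵ_ (Ordinal.omega0 + 1) : Cardinal.{0}) ^ c ≤ ℵ_ (Ordinal.omega0 + 1) := by
  rw [← h, ← power_mul]
  refine power_le_power_left two_ne_zero ?_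
  exact (mul_le_mul_right hc _).trans (mul_eq_self (aleph0_le_aleph _)).le

theorem t_ENUM : S_ENUM := by
  intro h
  obtain ⟨k0, -⟩ := exists_S 0 id
  constructor
  · have h1 : #(ℕ → K) ≤ #K := by
      rw [← power_def, mk_K, mk_nat]
      exact kappa_pow h (aleph0_le_aleph _)
    obtain ⟨i⟩ := h1
    have : Nonempty (ℕ → K) := ⟨fun _ => k0⟩
    exact ⟨Function.invFun i, Function.invFun_surjective i.injective⟩
  · let C : K → Set (ℕ → L → Set K) := fun α => {c | ∀ n l, c n l ⊆ Iio α}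
    have h1 : ∀ α, #(C α) ≤ ℵ_ (Ordinal.omega0 + 1) := by
      intro α
      have h2 : #(C α) ≤ #(ℕ → L → Set (Iio α)) := by
        refine mk_le_of_injective (f := fun c : C α => fun n l => {x : Iio α | (x : K) ∈ c.1 n l}) ?_
        intro c d hcd
        apply Subtype.ext
        funext n l
        have hc : ∀ n l, c.1 n l ⊆ Iio α := c.2
        have hd : ∀ n l, d.1 n l ⊆ Iio α := d.2
        have h3 : {x : Iio α | (x : K) ∈ c.1 n l} = {x : Iio α | (x : K) ∈ d.1 n l} :=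
          congrFun (congrFun hcd n) l
        ext x
        constructor
        · intro hx
          exact (Set.ext_iff.mp h3 ⟨x, hc n l hx⟩).mp hx
        · intro hx
          exact (Set.ext_iff.mp h3 ⟨x, hd n l hx⟩).mpr hx
      refine h2.trans ?_
      have h4 : #(Set (Iio α)) ≤ ℵ_ (Ordinal.omega0 + 1) := by
        rw [mk_set]
        exact (power_le_power_left two_ne_zero (mk_Iio_K α)).trans h.le
      have h5 : #(L → Set (Iio α)) ≤ ℵ_ (Ordinal.omega0 + 1) := by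
        rw [← power_def, mk_L]
        exact (power_le_power_right h4).trans (kappa_pow h le_rfl)
      rw [← power_def, mk_nat]
      exact (power_le_power_right h5).trans (kappa_pow h (aleph0_le_aleph _))
    have h2 : #(⋃ α, C α) ≤ #K := by
      refine (mk_iUnion_le _).trans ?_
      rw [mk_K]
      refine (mul_le_mul_right (ciSup_le' h1) _).trans (mul_eq_self (aleph0_le_aleph _)).le
    obtain ⟨i⟩ := h2
    have : Nonempty (⋃ α, C α : Set (ℕ → L → Set K)) :=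
      ⟨⟨fun _ _ => ∅, mem_iUnion.mpr ⟨k0, fun _ _ => empty_subset _⟩⟩⟩
    refine ⟨fun β => (Function.invFun i β : (⋃ α, C α : Set (ℕ → L → Set K))).1, ?_⟩
    intro α c hc
    obtain ⟨β, hβ⟩ := Function.invFun_surjective i.injective ⟨c, mem_iUnion.mpr ⟨α, hc⟩⟩
    exact ⟨β, congrArg Subtype.val hβ⟩

/-! ### GUESS -/

theorem t_GUESS : S_GUESS := by
  intro hlam k hk
  obtain ⟨-, e, he⟩ := t_ENUM hlam
  obtain ⟨E, hEm, hEu, hEc⟩ := exists_E
  have hEs : ∀ δ n, E δ n ⊆ Iio δ := by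
    intro δ n
    rw [← hEu δ]
    exact subset_iUnion _ n
  have hk0 : (ℵ₀ : Cardinal.{0}) < ℵ_ k := by
    rw [← aleph_zero]
    exact_mod_cast aleph_nat_lt (m := 0) (n := k) hk
  -- first step
  have step1 : ∃ n : ℕ, ∀ (Z : L → Set K) (g : K → K), ∃ δ, S k δ ∧ (∀ α < δ, g α < δ) ∧
      ∀ b < δ, ∃ α ∈ E δ n, b < α ∧ ∃ β ∈ E δ n, ∀ l, e β n l = Z l ∩ Iio α := by
    by_contra hcon
    push Not at hcon
    choose Z g hZ using hcon
    have hh : ∀ α : K, ∃ β, e β = fun n l => Z n l ∩ Iio α :=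
      fun α => he α _ fun n l => inter_subset_right
    choose h hh using hh
    have hb : ∀ α : K, ∃ c, ∀ x ∈ range (fun n => g n α) ∪ {h α}, x < c := by
      intro α
      apply bdd_K
      refine (mk_union_le _ _).trans (add_le_of_le (aleph0_le_aleph _) ?_ ?_)
      · refine mk_range_le.trans ?_
        rw [mk_nat]
        exact aleph0_le_aleph _
      · rw [mk_singleton]
        exact one_le_aleph0.trans (aleph0_le_aleph _)
    choose G hG using hb
    obtain ⟨δ, hδ, hcl⟩ := exists_S k G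
    have h1 : ∀ n, ∃ b < δ, ∀ α ∈ E δ n, b < α → ∀ β ∈ E δ n, ∃ l, e β n l ≠ Z n l ∩ Iio α :=
      fun n => hZ n δ hδ fun α hα => (hG α _ (Or.inl ⟨n, rfl⟩)).trans (hcl α hα)
    choose b hb hb' using h1
    have h2 := hδ.1 (range b) (mk_range_le.trans_lt (by rw [mk_nat]; exact hk0))
    obtain ⟨c, hc, hc'⟩ := not_cof.mp h2
    obtain ⟨α, hcα, hαδ⟩ := hδ.lt_of_lt hc
    have hhα : h α < δ := (hG α _ (Or.inr rfl)).trans (hcl α hαδ)
    have m1 : α ∈ ⋃ n, E δ n := by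
      rw [hEu]
      exact hαδ
    have m2 : h α ∈ ⋃ n, E δ n := by
      rw [hEu]
      exact hhα
    obtain ⟨n1, hn1⟩ := mem_iUnion.mp m1
    obtain ⟨n2, hn2⟩ := mem_iUnion.mp m2
    obtain ⟨l, hl⟩ := hb' (max n1 n2) α (hEm δ (le_max_left _ _) hn1)
      ((hc' _ (mem_range_self _) (hb _)).trans_lt hcα) (h α) (hEm δ (le_max_right _ _) hn2)
    exact hl (by rw [hh])
  obtain ⟨n, hn⟩ := step1
  by_contra hcon
  push Not at hcon
  -- second step
  obtain ⟨Y, hY⟩ := exists_rec (ι := L) (α := Set K × (K → K))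
    (fun η p y => ∀ δ, S k δ → (∀ α < δ, y.2 α < δ) →
      (⋃ z ∈ {z : K × K | z.1 ∈ E δ n ∧ z.2 ∈ E δ n ∧ ∀ ξ : Iio η,
        e z.2 n ξ = (p ξ).1 ∩ Iio z.1}, e z.2 n η) ≠ y.1 ∩ Iio δ)
    (fun η p => by
      obtain ⟨X, g, h⟩ := hcon fun δ => ⋃ z ∈ {z : K × K | z.1 ∈ E δ n ∧ z.2 ∈ E δ n ∧
        ∀ ξ : Iio η, e z.2 n ξ = (p ξ).1 ∩ Iio z.1}, e z.2 n η
      exact ⟨(X, g), h⟩)
  have hb : ∀ α : K, ∃ c, ∀ x ∈ range (fun η => (Y η).2 α), x < c :=
    fun α => bdd_K _ (mk_range_le.trans mk_L.le)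
  choose g hg using hb
  obtain ⟨δ, hδ, hcl, hcof⟩ := hn (fun l => (Y l).1) g
  have hclη : ∀ η, ∀ α < δ, (Y η).2 α < δ :=
    fun η α hα => (hg α _ ⟨η, rfl⟩).trans (hcl α hα)
  have hst : ∃ η : L, ∀ z ∈ {z : K × K | z.1 ∈ E δ n ∧ z.2 ∈ E δ n ∧ ∀ ξ : Iio η,
      e z.2 n ξ = (Y ξ).1 ∩ Iio z.1}, e z.2 n η = (Y η).1 ∩ Iio z.1 := by
    by_contra hc
    push Not at hc
    choose z hz hz' using hc
    have hinj : Function.Injective
        (fun η => ((⟨(z η).1, (hz η).1⟩, ⟨(z η).2, (hz η).2.1⟩) : E δ n × E δ n)) := by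
      have key : ∀ ξ η : L, ξ < η → z ξ ≠ z η := by
        intro ξ η hlt heq
        apply hz' ξ
        rw [heq]
        exact (hz η).2.2 ⟨ξ, hlt⟩
      intro ξ η h
      have h1 : z ξ = z η := by
        have h2 := congrArg (fun t : E δ n × E δ n => ((t.1 : K), (t.2 : K))) h
        exact h2
      by_contra hne
      rcases lt_or_gt_of_ne hne with h3 | h3
      · exact key _ _ h3 h1
      · exact key _ _ h3 h1.symm
    have h1 := mk_le_of_injective hinj
    rw [mk_L, mk_prod, lift_id] at h1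
    have h2 := (mul_le_mul' (hEc δ n) (hEc δ n)).trans (mul_eq_self (aleph0_le_nat n)).le
    exact absurd (aleph_nat_lt_omega n) (h1.trans h2).not_gt
  obtain ⟨η, hη⟩ := hst
  apply hY η δ hδ (hclη η)
  ext x
  constructor
  · intro hx
    obtain ⟨z, hz, hxz⟩ := mem_iUnion₂.mp hx
    rw [hη z hz] at hxz
    have h1 : x < z.1 := hxz.2
    have h2 : z.1 < δ := hEs _ _ hz.1
    exact ⟨hxz.1, h1.trans h2⟩
  · rintro ⟨hx, hxδ⟩
    obtain ⟨α, hα, hxα, β, hβ, hl⟩ := hcof x hxδ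
    refine mem_iUnion₂.mpr ⟨(α, β), ⟨hα, hβ, fun ξ => hl ξ⟩, ?_⟩
    rw [hl η]
    exact ⟨hx, hxα⟩

end Pool.Agent.V5helper1.FS
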