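import Mathlib

/-!
# Project FS: free sets for set mappings on `ℵ_{ω+1}` (MP_dbf0a5_lc)

Goal: if `2 ^ ℵ_ω = ℵ_{ω+1}`, there is a set mapping `f` on `κ = ℵ_{ω+1}` with `|f x| ≤ ℵ_ω`,
`|f x ∩ f y| < ℵ_ω` for `x ≠ y` and without a free set of cardinality `κ`; i.e.
`(ℵ_{ω+1}, 2, ℵ_ω) ↛ ℵ_{ω+1}`. Four jobs: `S_ENUM`, `S_GUESS`, `S_CL`, `S_CON`.
-/

set_option autoImplicit false

open Cardinal Set

namespace Pool.Agent.V5helper1.FS

/-- the least well-order of cardinality `c` -/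
abbrev W (c : Cardinal.{0}) : Type := c.ord.ToType

/-- `κ = ℵ_{ω+1}` -/
abbrev K : Type := W (ℵ_ (Ordinal.omega0 + 1))

/-- `λ = ℵ_ω` -/
abbrev L : Type := W (ℵ_ Ordinal.omega0)

/-- `C` is cofinal in `δ`. -/
def Cof (δ : K) (C : Set K) : Prop := ∀ b < δ, ∃ a ∈ C, b < a ∧ a < δ

/-- The cofinality of `δ` is `ℵ_k`. -/
def S (k : ℕ) (δ : K) : Prop :=
  (∀ C : Set K, #C < ℵ_ k → ¬ Cof δ C) ∧ ∃ C : Set K, #C ≤ ℵ_ k ∧ Cof δ C

/-- **ENUM** (helper1). Consequences of the cardinal arithmetic. -/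
def S_ENUM : Prop := (2 : Cardinal.{0}) ^ ℵ_ Ordinal.omega0 = ℵ_ (Ordinal.omega0 + 1) →
  (∃ T : K → ℕ → K, Function.Surjective T) ∧
  ∃ e : K → ℕ → L → Set K, ∀ (α : K) (c : ℕ → L → Set K), (∀ n l, c n l ⊆ Iio α) → ∃ β, e β = c

/-- **GUESS** (helper1). Diamond for the points of cofinality `ℵ_k`, `k ≥ 1`. -/
def S_GUESS : Prop := (2 : Cardinal.{0}) ^ ℵ_ Ordinal.omega0 = ℵ_ (Ordinal.omega0 + 1) →
  ∀ k : ℕ, 1 ≤ k → ∃ G : K → Set K, ∀ (X : Set K) (g : K → K),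
    ∃ δ, S k δ ∧ (∀ α < δ, g α < δ) ∧ G δ = X ∩ Iio δ

/-- **CL** (choice lemma). From at most `ℵ_m` cofinal subsets `Y i` of points `σ i` of cofinality
`ℵ_{m+2}` one can choose elements `x i` such that the set of the `x i` meets every ladder `A k δ`
(`δ` of uncountable cofinality `ℵ_k`) in a set bounded in `δ`.

Proof. (1) *Blocks.* There are `s i < t i < σ i` such that the intervals `[s i, t i)` are pairwise
disjoint and each contains at least `ℵ_{m+1}` points of `Y i`. Well-order `ι` and choose `(s i, t i)` by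
recursion on `i`: `s i < σ i` is `≥` all `σ j < σ i` (`j ∈ ι`) and `≥ t j` for all `j < i` with
`σ j = σ i` (at most `ℵ_m` many points below `σ i`, so they are bounded as `σ i` has cofinality
`ℵ_{m+2}`: first half of `S (m+2) (σ i)`); then `Y i ∩ [s i, σ i)` is cofinal in `σ i`, so it has at least
`ℵ_{m+2}` points, choose `ℵ_{m+1}` of them, they are bounded by some `t i < σ i`. Disjointness: if
`σ j < σ i` then `t j < σ j ≤ s i`; if `σ j = σ i`, `j < i` then `t j ≤ s i`.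
(2) *The dangerous points.* Let `D` be the set of all `δ` in which `{s i}` is cofinal (`δ` not
minimal). Then `|D| ≤ ℵ_m` (+ finite; `ι` may be finite): `δ ↦ min {s i : s i ≥ δ}` is injective on `D`
without its maximum, as for `δ < δ'` in `D` there is some `s i ∈ (δ, δ')`. Let
`Z = ⋃ {A k δ : δ ∈ D, k ≤ m, S k δ}`, `|Z| ≤ ℵ_m`.
(3) Choose `x i ∈ Y i ∩ [s i, t i) \ Z` (possible: `ℵ_m < ℵ_{m+1}`). Let `δ` have cofinality `ℵ_k`, `k ≥ 1`.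
If `k > m`: `|range x| ≤ ℵ_m < ℵ_k` so it is bounded in `δ`. If `k ≤ m` and `δ ∈ D`:
`range x ∩ A k δ = ∅`. If `k ≤ m` and `δ ∉ D`: `range x` is not cofinal in `δ`, for if it were,
for `b < δ` there are `b < x i < x j < δ` (`x i ≠ x j` gives `i ≠ j`, the blocks are disjoint intervals)
so `b < x i < t i ≤ s j ≤ x j < δ` and `{s i}` would be cofinal in `δ`. -/
def S_CL : Prop := ∀ (m : ℕ) (ι : Type), #ι ≤ ℵ_ m → ∀ (σ : ι → K) (Y : ι → Set K)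
  (A : ℕ → K → Set K), (∀ i, S (m + 2) (σ i)) → (∀ i, Cof (σ i) (Y i)) →
    (∀ k δ, S k δ → #(A k δ) ≤ ℵ_ k) →
    ∃ x : ι → K, (∀ i, x i ∈ Y i ∧ x i < σ i) ∧
      ∀ k, 1 ≤ k → ∀ δ, S k δ → ¬ Cof δ (range x ∩ A k δ)

/-- **CON** (the construction). Given ladders `A k δ` such that every large set contains a cofinal
ladder `A k δ`, for every `k ≥ 1`, and an enumeration `T` of the sequences in `κ`, there is the
set mapping.

Proof. For `α ∈ K` let `Iio α = ⋃_m E α m`, increasing, `|E α m| ≤ ℵ_m` (`|Iio α| ≤ ℵ_ω`).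
Define `f α` by recursion on `α`. Let `f γ` be given for `γ < α`. For `m ∈ ℕ` let `ι_m` be the set of the
`β ∈ E α m` such that `σ = T β (m + 2)` satisfies `S (m + 2) σ`, `σ ≤ α`, and
`Y β = A (m + 2) σ \ ⋃_{γ ∈ E α m} f γ` is cofinal in `σ`. By the choice lemma (`CL`) for `ι_m` one gets
`x_{m, β} ∈ Y β`, `x_{m, β} < σ ≤ α`, such that `F_m = {x_{m, β} : β ∈ ι_m}` satisfies:
`F_m ∩ A k δ` is not cofinal in `δ` if `S k δ`, `k ≥ 1`. Let `f α = ⋃_m F_m`. Then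
* `f α ⊆ Iio α`, `|f α| ≤ ℵ_ω`;
* `f α ∩ A k δ` is not cofinal in `δ` if `S k δ`, `k ≥ 1` (a countable union of bounded sets,
  bounds `b_m < δ`, `{b_m}` is countable, `ℵ_0 < ℵ_k`, first half of `S k δ`);
* for `γ < α`, `γ ∈ E α d`: `F_m ∩ f γ = ∅` for `m ≥ d`, so `|f α ∩ f γ| ≤ |⋃_{m < d} F_m| ≤ ℵ_d < ℵ_ω`;
* `X` with `|X| = κ` is not free: take `δ_k` with `S k δ_k`, `A k δ_k ⊆ X` cofinal in `δ_k` (`k ≥ 1`), `β` with
  `T β k = δ_k` for all `k ≥ 1`, `y ∈ X` with `y > β` and `y > δ_k` for all `k`, `m` with `β ∈ E y m`,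
  `σ = δ_{m+2}`. For `γ ∈ E y m` the set `f γ ∩ A (m+2) σ` is bounded in `σ`, and `|E y m| ≤ ℵ_m < ℵ_{m+2}`, so
  `⋃_{γ ∈ E y m} f γ ∩ A (m + 2) σ` is bounded in `σ` (first half of `S (m+2) σ`), hence `Y β` is cofinal
  in `σ` and `β ∈ ι_m`. So `x = x_{m, β} ∈ f y`, `x ∈ A (m+2) σ ⊆ X`, `x < y`. -/
def S_CON : Prop := ∀ (A : ℕ → K → Set K) (T : K → ℕ → K), Function.Surjective T →
  (∀ k δ, S k δ → #(A k δ) ≤ ℵ_ k) →
  (∀ k, 1 ≤ k → ∀ X : Set K, #X = #K → ∃ δ, S k δ ∧ A k δ ⊆ X ∧ Cof δ (A k δ)) →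
  ∃ f : K → Set K, (∀ α, f α ⊆ Iio α) ∧ (∀ α, #(f α) ≤ ℵ_ Ordinal.omega0) ∧
    (∀ α β, α ≠ β → #(f α ∩ f β : Set K) < ℵ_ Ordinal.omega0) ∧
    ∀ X : Set K, #X = #K → ∃ x ∈ X, ∃ y ∈ X, x ≠ y ∧ x ∈ f y

end Pool.Agent.V5helper1.FS
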